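import Mathlib
import Pool.Agent.H87.QGLDef
import Pool.Agent.H87.QGL2

namespace Pool.Agent.Results.MP_4bd73f_an.Yes

open Pool.Agent.H87.QGL

/-- A quasi-greedy basis of a superreflexive Banach space induces an embedding into
`d_{1,r}(w_l)` for some finite `r`. -/
theorem result {𝕜 X Y : Type*} [RCLike 𝕜]
    [NormedAddCommGroup X] [NormedSpace 𝕜 X] [CompleteSpace X]
    [NormedAddCommGroup Y] [NormedSpace 𝕜 Y] [UniformConvexSpace Y] (e : X ≃L[𝕜] Y)
    (x : ℕ → X) (xs : ℕ → StrongDual 𝕜 X) (hb : IsBasis x xs) (hq : IsQuasiGreedy x xs) :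
    ∃ r : ℝ, 1 ≤ r ∧ ∃ C : ℝ, ∀ f : X,
      Summable (lorentzTerm (phiL 𝕜 x) r fun n => xs n f) ∧
      (∑' m, lorentzTerm (phiL 𝕜 x) r (fun n => xs n f) m) ^ (1 / r) ≤ C * ‖f‖ := by
  have hY : TP Y := by
    let _ : NormedSpace ℝ Y := NormedSpace.restrictScalars ℝ 𝕜 Y
    exact tp_of_uc Y
  obtain ⟨r, B, hr, hB, h⟩ := main (tp_of_equiv e hY) hb hq
  have hr' : (1 : ℝ) ≤ r := by exact_mod_cast hr
  refine ⟨r, hr', B ^ (1 / (r : ℝ)), fun f => ?_⟩
  have h0 := fun m => (term_le (phiL 𝕜 x) (phiL_mono x) (phiL_nonneg x) r hr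
    (fun n => xs n f) m).1
  refine ⟨summable_of_sum_range_le h0 (h f), ?_⟩
  refine (Real.rpow_le_rpow (tsum_nonneg h0) (Real.tsum_le_of_sum_range_le h0 (h f))
    (by positivity)).trans (le_of_eq ?_)
  rw [Real.mul_rpow hB (by positivity), one_div,
    Real.pow_rpow_inv_natCast (norm_nonneg _) (by omega)]

end Pool.Agent.Results.MP_4bd73f_an.Yes
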